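import Pool.Agent.Helper600R2.TS.Fin

/-!
Superlinear total space for polynomially refutable k-CNFs: for every `γ < 4 / 3` there are k-CNFs
with polynomial size (and constant width) resolution refutations all of whose space-aware
refutations have total space at least `n ^ γ`.
-/

namespace Pool.Agent.Results.MP_f95493_lc.SuperlinearTotalSpace

open Finset Pool.Agent.Helper600R2.TS

/-- For every `γ < 4 / 3` there are `k, c, n₀` such that for every `n ≥ n₀` some unsatisfiable
`k`-CNF `F` in `n` variables with at most `n ^ c` clauses has a resolution refutation of size at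
most `n ^ c`, all of whose clauses have at most `k` literals, while every space-aware resolution
refutation of `F` contains a configuration of total space at least `n ^ γ`. -/
theorem result (γ : ℝ) (hγ : γ < 4 / 3) : ∃ (k c n₀ : ℕ), ∀ n ≥ n₀, ∃ F : Finset (Cl n),
    (∀ C ∈ F, C.card ≤ k) ∧ F.card ≤ n ^ c ∧ ¬ Satisfiable F ∧
    (∃ (s : ℕ) (π : ℕ → Cl n), IsRefutation F s π ∧ s ≤ n ^ c ∧ ∀ i < s, (π i).card ≤ k) ∧
    ∀ (t : ℕ) (π : ℕ → Finset (Cl n)), IsSpaceRefutation F t π →
      ∃ i ≤ t, (n : ℝ) ^ γ ≤ totalSpace (π i) := by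
  obtain ⟨k, c, n₀, H⟩ := main γ hγ
  refine ⟨k, c, n₀, fun n hn => ?_⟩
  obtain ⟨F, h1, h2, ⟨s, π, h3, h4, h5⟩, h6⟩ := H n hn
  exact ⟨F, h1, h2, unsat_of_refutation h3, ⟨s, π, h3, h4, h5⟩, h6⟩

end Pool.Agent.Results.MP_f95493_lc.SuperlinearTotalSpace
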